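import Pool.Agent.H586.AF.B

/-!
# Project AF (helper586): task AF-T, heat kernel formulas for the traces
-/

set_option autoImplicit false

open MeasureTheory Matrix Finset Filter Topology

namespace Pool.Agent.H307.AF

open Pool.Agent.H586.AF

/-! ### The product over the four directions -/

section k4lemmas

open scoped Kronecker

variable {R : Type} [CommRing R] {a b c d a' b' c' d' a'' b'' c'' d'' : Type}

theorem k4_eq (A : Matrix a a' R) (B : Matrix b b' R) (C : Matrix c c' R) (D : Matrix d d' R) :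
    k4 A B C D = A ⊗ₖ (B ⊗ₖ (C ⊗ₖ D)) := by
  ext ⟨x1, x2, x3, x4⟩ ⟨y1, y2, y3, y4⟩
  simp only [k4, kronecker_apply, mul_assoc]

theorem k4_mul [Fintype a'] [Fintype b'] [Fintype c'] [Fintype d']
    (A : Matrix a a' R) (B : Matrix b b' R) (C : Matrix c c' R) (D : Matrix d d' R)
    (A' : Matrix a' a'' R) (B' : Matrix b' b'' R) (C' : Matrix c' c'' R) (D' : Matrix d' d'' R) :
    k4 A B C D * k4 A' B' C' D' = k4 (A * A') (B * B') (C * C') (D * D') := by
  rw [k4_eq, k4_eq, k4_eq, mul_kronecker_mul, mul_kronecker_mul, mul_kronecker_mul]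

theorem k4_trace [Fintype a] [Fintype b] [Fintype c] [Fintype d]
    (A : Matrix a a R) (B : Matrix b b R) (C : Matrix c c R) (D : Matrix d d R) :
    (k4 A B C D).trace = A.trace * B.trace * C.trace * D.trace := by
  rw [k4_eq, trace_kronecker, trace_kronecker, trace_kronecker]
  ring

theorem k4_transpose (A : Matrix a a' R) (B : Matrix b b' R) (C : Matrix c c' R)
    (D : Matrix d d' R) : (k4 A B C D)ᵀ = k4 Aᵀ Bᵀ Cᵀ Dᵀ := rfl

variable [DecidableEq a] [DecidableEq b] [DecidableEq c] [DecidableEq d]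

theorem k4_one : k4 (1 : Matrix a a R) (1 : Matrix b b R) (1 : Matrix c c R) (1 : Matrix d d R) =
    1 := by
  rw [k4_eq, one_kronecker_one, one_kronecker_one, one_kronecker_one]

theorem k4_diag (u : a → R) (v : b → R) (w : c → R) (z : d → R) :
    k4 (diagonal u) (diagonal v) (diagonal w) (diagonal z) =
      diagonal fun x => u x.1 * v x.2.1 * w x.2.2.1 * z x.2.2.2 := by
  rw [k4_eq, diagonal_kronecker_diagonal, diagonal_kronecker_diagonal, diagonal_kronecker_diagonal]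
  congr 1
  funext x
  ring

end k4lemmas

/-! ### The spectral theorem -/

theorem spec {n : ℕ} {A : Matrix (Fin n) (Fin n) ℝ} (hA : A.PosSemidef) :
    ∃ (U : Matrix (Fin n) (Fin n) ℝ) (l : Fin n → ℝ), U * Uᵀ = 1 ∧ Uᵀ * U = 1 ∧
      (∀ i, 0 ≤ l i) ∧ A = U * diagonal l * Uᵀ := by
  refine ⟨(hA.1.eigenvectorUnitary : Matrix (Fin n) (Fin n) ℝ), hA.1.eigenvalues, ?_, ?_,
    fun i => hA.eigenvalues_nonneg i, ?_⟩
  · exact Unitary.coe_mul_star_self hA.1.eigenvectorUnitary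
  · exact Unitary.coe_star_mul_self hA.1.eigenvectorUnitary
  · have h := hA.1.spectral_theorem
    rw [Unitary.conjStarAlgAut_apply] at h
    exact h

theorem spec_pos {n : ℕ} {A : Matrix (Fin n) (Fin n) ℝ} (hA : A.PosDef) :
    ∃ (U : Matrix (Fin n) (Fin n) ℝ) (l : Fin n → ℝ), U * Uᵀ = 1 ∧ Uᵀ * U = 1 ∧
      (∀ i, 0 < l i) ∧ A = U * diagonal l * Uᵀ := by
  refine ⟨(hA.1.eigenvectorUnitary : Matrix (Fin n) (Fin n) ℝ), hA.1.eigenvalues, ?_, ?_,
    fun i => hA.eigenvalues_pos i, ?_⟩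
  · exact Unitary.coe_mul_star_self hA.1.eigenvectorUnitary
  · exact Unitary.coe_star_mul_self hA.1.eigenvectorUnitary
  · have h := hA.1.spectral_theorem
    rw [Unitary.conjStarAlgAut_apply] at h
    exact h

theorem hk_spec {n : ℕ} (U : Matrix (Fin n) (Fin n) ℝ) (l : Fin n → ℝ) (h1 : U * Uᵀ = 1)
    (t : ℝ) :
    hk (U * diagonal l * Uᵀ) t = U * (diagonal fun i => Real.exp (-t * l i)) * Uᵀ := by
  have hU : IsUnit U := IsUnit.of_mul_eq_one _ h1
  have hinv : U⁻¹ = Uᵀ := inv_eq_right_inv h1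
  unfold hk
  have e1 : (-t) • (U * diagonal l * Uᵀ) = U * (diagonal fun i => -t * l i) * U⁻¹ := by
    rw [hinv]
    have e2 : (diagonal fun i => -t * l i) = (-t) • diagonal l := by
      rw [← diagonal_smul]
      rfl
    rw [e2, Matrix.mul_smul, Matrix.smul_mul]
  rw [e1, Matrix.exp_conj _ _ hU, Matrix.exp_diagonal, hinv]
  congr 2
  rw [Pi.exp_def, Real.exp_eq_exp_ℝ]

theorem hk_add {n : ℕ} (A : Matrix (Fin n) (Fin n) ℝ) (t s : ℝ) :
    hk A t * hk A s = hk A (t + s) := by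
  unfold hk
  rw [← Matrix.exp_add_of_commute _ _ (((Commute.refl A).smul_left _).smul_right _)]
  congr 1
  module

theorem hk_symm {n : ℕ} (A : Matrix (Fin n) (Fin n) ℝ) (h : Aᵀ = A) (t : ℝ) :
    (hk A t)ᵀ = hk A t := by
  unfold hk
  rw [← Matrix.exp_transpose, transpose_smul, h]

/-- the trace of the inverse of a diagonalised matrix against a fixed matrix -/
theorem core {ι : Type} [Fintype ι] [DecidableEq ι] (W : Matrix ι ι ℝ) (Λ : ι → ℝ)
    (hW : Wᵀ * W = 1) (hW' : W * Wᵀ = 1) (hpos : ∀ x, 0 < Λ x) :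
    (W * diagonal Λ * Wᵀ) * (W * diagonal Λ * Wᵀ)⁻¹ = 1 ∧ ∀ Q : Matrix ι ι ℝ,
    ((W * diagonal Λ * Wᵀ)⁻¹ * Q).trace = ∫ t in Set.Ioi (0 : ℝ),
      (W * (diagonal fun x => Real.exp (-t * Λ x)) * Wᵀ * Q).trace := by
  have hone : (W * diagonal Λ * Wᵀ) * (W * (diagonal fun x => (Λ x)⁻¹) * Wᵀ) = 1 := by
    have e1 : (W * diagonal Λ * Wᵀ) * (W * (diagonal fun x => (Λ x)⁻¹) * Wᵀ) =
        W * (diagonal Λ * (Wᵀ * W) * (diagonal fun x => (Λ x)⁻¹)) * Wᵀ := by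
      simp only [Matrix.mul_assoc]
    have e2 : (fun x => Λ x * (Λ x)⁻¹) = fun _ => 1 := by
      funext x
      exact mul_inv_cancel₀ (hpos x).ne'
    rw [e1, hW, Matrix.mul_one, diagonal_mul_diagonal, e2, diagonal_one, Matrix.mul_one, hW']
  have hinv : (W * diagonal Λ * Wᵀ)⁻¹ = W * (diagonal fun x => (Λ x)⁻¹) * Wᵀ :=
    inv_eq_right_inv hone
  rw [hinv]
  refine ⟨hone, fun Q => ?_⟩
  have htr : ∀ d : ι → ℝ, (W * diagonal d * Wᵀ * Q).trace = ∑ x, d x * (Wᵀ * Q * W) x x := by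
    intro d
    have e1 : W * diagonal d * Wᵀ * Q = W * (diagonal d * (Wᵀ * Q)) := by
      simp only [Matrix.mul_assoc]
    rw [e1, Matrix.trace_mul_comm, Matrix.mul_assoc]
    unfold Matrix.trace
    refine Finset.sum_congr rfl fun x _ => ?_
    rw [Matrix.diag_apply, Matrix.diagonal_mul]
  rw [htr]
  simp only [htr]
  rw [MeasureTheory.integral_finsetSum]
  · refine Finset.sum_congr rfl fun x _ => ?_
    rw [MeasureTheory.integral_mul_const]
    congr 1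
    have h1 : ∀ t : ℝ, Real.exp (-t * Λ x) = Real.exp (-(Λ x) * t) := by
      intro t
      congr 1
      ring
    simp only [h1]
    rw [integral_exp_mul_Ioi (neg_lt_zero.2 (hpos x)), mul_zero, Real.exp_zero, neg_div_neg_eq,
      one_div]
  · intro x _
    have h1 : (fun t : ℝ => Real.exp (-t * Λ x)) = fun t => Real.exp (-(Λ x) * t) := by
      funext t
      congr 1
      ring
    have h2 : IntegrableOn (fun t : ℝ => Real.exp (-t * Λ x)) (Set.Ioi 0) := by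
      rw [h1]
      exact integrableOn_exp_mul_Ioi (neg_lt_zero.2 (hpos x)) 0
    exact h2.mul_const _

section four

variable {n1 n2 n3 n4 : ℕ}

theorem diag_sum (l1 : Fin n1 → ℝ) (l2 : Fin n2 → ℝ) (l3 : Fin n3 → ℝ) (l4 : Fin n4 → ℝ) :
    (diagonal fun x : Fin n1 × Fin n2 × Fin n3 × Fin n4 =>
      l1 x.1 + l2 x.2.1 + l3 x.2.2.1 + l4 x.2.2.2) =
    k4 (diagonal l1) 1 1 1 + k4 1 (diagonal l2) 1 1 + k4 1 1 (diagonal l3) 1 +
      k4 1 1 1 (diagonal l4) := by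
  simp only [← diagonal_one, k4_diag, diagonal_add]
  congr 1
  funext x
  simp

theorem ks_spec (U1 : Matrix (Fin n1) (Fin n1) ℝ) (U2 : Matrix (Fin n2) (Fin n2) ℝ)
    (U3 : Matrix (Fin n3) (Fin n3) ℝ) (U4 : Matrix (Fin n4) (Fin n4) ℝ)
    (l1 : Fin n1 → ℝ) (l2 : Fin n2 → ℝ) (l3 : Fin n3 → ℝ) (l4 : Fin n4 → ℝ)
    (h1 : U1 * U1ᵀ = 1) (h2 : U2 * U2ᵀ = 1) (h3 : U3 * U3ᵀ = 1) (h4 : U4 * U4ᵀ = 1) :
    ks (U1 * diagonal l1 * U1ᵀ) (U2 * diagonal l2 * U2ᵀ) (U3 * diagonal l3 * U3ᵀ)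
      (U4 * diagonal l4 * U4ᵀ) = k4 U1 U2 U3 U4 *
        (diagonal fun x : Fin n1 × Fin n2 × Fin n3 × Fin n4 =>
          l1 x.1 + l2 x.2.1 + l3 x.2.2.1 + l4 x.2.2.2) * (k4 U1 U2 U3 U4)ᵀ := by
  rw [diag_sum, k4_transpose]
  unfold ks
  simp only [Matrix.mul_add, Matrix.add_mul, k4_mul, Matrix.mul_one, h1, h2, h3, h4]

/-- the trace of the inverse against a fixed matrix -/
theorem F2 {A1 : Matrix (Fin n1) (Fin n1) ℝ} {A2 : Matrix (Fin n2) (Fin n2) ℝ}
    {A3 : Matrix (Fin n3) (Fin n3) ℝ} {A4 : Matrix (Fin n4) (Fin n4) ℝ} (hA1 : A1.PosSemidef)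
    (hA2 : A2.PosSemidef) (hA3 : A3.PosSemidef) (hA4 : A4.PosDef) :
    ks A1 A2 A3 A4 * (ks A1 A2 A3 A4)⁻¹ = 1 ∧
    ∀ Q : Matrix (Fin n1 × Fin n2 × Fin n3 × Fin n4) (Fin n1 × Fin n2 × Fin n3 × Fin n4) ℝ,
    ((ks A1 A2 A3 A4)⁻¹ * Q).trace = ∫ t in Set.Ioi (0 : ℝ),
      (k4 (hk A1 t) (hk A2 t) (hk A3 t) (hk A4 t) * Q).trace := by
  obtain ⟨U1, l1, a1, b1, p1, rfl⟩ := spec hA1
  obtain ⟨U2, l2, a2, b2, p2, rfl⟩ := spec hA2
  obtain ⟨U3, l3, a3, b3, p3, rfl⟩ := spec hA3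
  obtain ⟨U4, l4, a4, b4, p4, rfl⟩ := spec_pos hA4
  clear hA1 hA2 hA3 hA4
  have hE : ∀ t : ℝ, k4 (hk (U1 * diagonal l1 * U1ᵀ) t) (hk (U2 * diagonal l2 * U2ᵀ) t)
      (hk (U3 * diagonal l3 * U3ᵀ) t) (hk (U4 * diagonal l4 * U4ᵀ) t) = k4 U1 U2 U3 U4 *
        (diagonal fun x : Fin n1 × Fin n2 × Fin n3 × Fin n4 =>
          Real.exp (-t * (l1 x.1 + l2 x.2.1 + l3 x.2.2.1 + l4 x.2.2.2))) *
            (k4 U1 U2 U3 U4)ᵀ := by
    intro t
    rw [hk_spec U1 l1 a1, hk_spec U2 l2 a2, hk_spec U3 l3 a3, hk_spec U4 l4 a4, ← k4_mul,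
      ← k4_mul, k4_diag, k4_transpose]
    congr 3
    funext x
    rw [← Real.exp_add, ← Real.exp_add, ← Real.exp_add]
    congr 1
    ring
  rw [ks_spec U1 U2 U3 U4 l1 l2 l3 l4 a1 a2 a3 a4]
  simp only [hE]
  clear hE
  have hW : (k4 U1 U2 U3 U4)ᵀ * k4 U1 U2 U3 U4 = 1 := by
    rw [k4_transpose, k4_mul, b1, b2, b3, b4, k4_one]
  have hW' : k4 U1 U2 U3 U4 * (k4 U1 U2 U3 U4)ᵀ = 1 := by
    rw [k4_transpose, k4_mul, a1, a2, a3, a4, k4_one]
  have hpos : ∀ x : Fin n1 × Fin n2 × Fin n3 × Fin n4,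
      0 < l1 x.1 + l2 x.2.1 + l3 x.2.2.1 + l4 x.2.2.2 := by
    intro x
    have h1 := p1 x.1
    have h2 := p2 x.2.1
    have h3 := p3 x.2.2.1
    have h4 := p4 x.2.2.2
    linarith
  exact core _ _ hW hW' hpos

/-- the first formula -/
theorem part1 {A1 : Matrix (Fin n1) (Fin n1) ℝ} {A2 : Matrix (Fin n2) (Fin n2) ℝ}
    {A3 : Matrix (Fin n3) (Fin n3) ℝ} {A4 : Matrix (Fin n4) (Fin n4) ℝ} (hA1 : A1.PosSemidef)
    (hA2 : A2.PosSemidef) (hA3 : A3.PosSemidef) (hA4 : A4.PosDef) :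
    ((ks A1 A2 A3 A4)⁻¹).trace = ∫ t in Set.Ioi (0 : ℝ), cc A1 t * cc A2 t * cc A3 t * cc A4 t := by
  have h := (F2 hA1 hA2 hA3 hA4).2 1
  simp only [Matrix.mul_one, k4_trace] at h
  exact h

/-- the third formula -/
theorem part3 {A1 : Matrix (Fin n1) (Fin n1) ℝ} {A2 : Matrix (Fin n2) (Fin n2) ℝ}
    {A3 : Matrix (Fin n3) (Fin n3) ℝ} {A4 : Matrix (Fin n4) (Fin n4) ℝ} (hA1 : A1.PosSemidef)
    (hA2 : A2.PosSemidef) (hA3 : A3.PosSemidef) (hA4 : A4.PosDef) {m1 m2 : ℕ}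
    (B1 : Matrix (Fin m1) (Fin m1) ℝ) (B2 : Matrix (Fin m2) (Fin m2) ℝ)
    (N1 : Matrix (Fin n1) (Fin m1) ℝ) (N2 : Matrix (Fin n2) (Fin m2) ℝ) (hB1 : B1.PosSemidef)
    (hB2 : B2.PosSemidef) :
    ((ks A1 A2 A3 A4)⁻¹ * k4 N1 N2 (1 : Matrix (Fin n3) (Fin n3) ℝ)
      (1 : Matrix (Fin n4) (Fin n4) ℝ) * (ks B1 B2 A3 A4)⁻¹ *
      (k4 N1 N2 (1 : Matrix (Fin n3) (Fin n3) ℝ) (1 : Matrix (Fin n4) (Fin n4) ℝ))ᵀ).trace =
      ∫ t in Set.Ioi (0 : ℝ), ∫ s in Set.Ioi (0 : ℝ),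
        (hk A1 t * N1 * hk B1 s * N1ᵀ).trace * (hk A2 t * N2 * hk B2 s * N2ᵀ).trace *
          cc A3 (t + s) * cc A4 (t + s) := by
  rw [Matrix.mul_assoc, Matrix.mul_assoc, (F2 hA1 hA2 hA3 hA4).2]
  congr 1
  funext t
  have e1 : ∀ (P : Matrix (Fin n1 × Fin n2 × Fin n3 × Fin n4) (Fin m1 × Fin m2 × Fin n3 × Fin n4) ℝ)
      (E : Matrix (Fin n1 × Fin n2 × Fin n3 × Fin n4) (Fin n1 × Fin n2 × Fin n3 × Fin n4) ℝ)
      (G : Matrix (Fin m1 × Fin m2 × Fin n3 × Fin n4) (Fin m1 × Fin m2 × Fin n3 × Fin n4) ℝ),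
      (E * (P * (G * Pᵀ))).trace = (G * (Pᵀ * (E * P))).trace := by
    intro P E G
    rw [← Matrix.mul_assoc E P, Matrix.trace_mul_comm, Matrix.mul_assoc]
  rw [e1, (F2 hB1 hB2 hA3 hA4).2]
  congr 1
  funext s
  rw [k4_transpose, k4_mul, k4_mul, k4_mul, k4_trace]
  simp only [Matrix.transpose_one, Matrix.one_mul, Matrix.mul_one, hk_add]
  have e2 : ∀ {n m : ℕ} (A : Matrix (Fin n) (Fin n) ℝ) (B : Matrix (Fin m) (Fin m) ℝ)
      (N : Matrix (Fin n) (Fin m) ℝ), (B * (Nᵀ * (A * N))).trace = (A * N * B * Nᵀ).trace := by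
    intro n m A B N
    rw [← Matrix.mul_assoc, Matrix.trace_mul_comm, Matrix.mul_assoc (A * N)]
  rw [e2, e2, add_comm s t]
  rfl

/-- the trace identity behind the second formula -/
theorem tr_id {ι : Type} [Fintype ι] [DecidableEq ι] (M G A B K L : Matrix ι ι ℝ)
    (hMG : M * G = 1) (hGM : G * M = 1) (hBM : B * M - M * B = -K) (hBK : B * K - K * B = L)
    (hAB : A * B = B * A) (hAK : A * K = K * A) (hG : Gᵀ = G) (hK : Kᵀ = -K) (hA : Aᵀ = A) :
    (G * (A * A * L)).trace + (G * (A * K) * G * (A * K)).trace =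
      -(1 / 2) * (G * (K * (G * A * A + A * A * G - 2 * (A * G * A)) * K)).trace := by
  have hGB : G * B - B * G = -(G * K * G) := by
    have e1 : G * (B * M - M * B) * G = G * B * (M * G) - G * M * B * G := by noncomm_ring
    rw [hBM, hMG, hGM, Matrix.mul_one, Matrix.one_mul] at e1
    rw [← e1]
    noncomm_ring
  -- the first trace
  have h1 : (G * (A * A * L)).trace = -(K * G * K * (G * A * A)).trace := by
    have e1 : G * (A * A * L) = G * (A * A * B) * K - G * A * A * K * B := by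
      rw [← hBK]
      noncomm_ring
    have e2 : A * A * B = B * (A * A) := by
      rw [Matrix.mul_assoc, hAB, ← Matrix.mul_assoc, hAB, Matrix.mul_assoc]
    have e3 : (G * A * A * K * B).trace = (B * (G * A * A * K)).trace :=
      Matrix.trace_mul_comm _ _
    rw [e1, e2, Matrix.trace_sub, e3, ← Matrix.trace_sub]
    have e4 : G * (B * (A * A)) * K - B * (G * A * A * K) = (G * B - B * G) * (A * A * K) := by
      noncomm_ring
    rw [e4, hGB, Matrix.neg_mul, Matrix.trace_neg]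
    congr 1
    have e5 : G * K * G * (A * A * K) = (G * K * G * A * A) * K := by noncomm_ring
    rw [e5, Matrix.trace_mul_comm]
    congr 1
    noncomm_ring
  have h2 : (G * (A * K) * G * (A * K)).trace = (K * G * K * (A * G * A)).trace := by
    have e5 : G * (A * K) * G * (A * K) = (G * (A * K) * G * A) * K := by noncomm_ring
    rw [e5, Matrix.trace_mul_comm, hAK]
    congr 1
    noncomm_ring
  have h3 : (K * G * K * (G * A * A)).trace = (K * G * K * (A * A * G)).trace := by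
    have e6 : (K * G * K * (A * A * G)).trace = (G * A * A * (K * G * K)).trace := by
      rw [← Matrix.trace_transpose]
      congr 1
      simp only [Matrix.transpose_mul, hG, hK, hA]
      noncomm_ring
    rw [e6, Matrix.trace_mul_comm]
  have h4 : (G * (K * (G * A * A + A * A * G - 2 * (A * G * A)) * K)).trace =
      (K * G * K * (G * A * A)).trace + (K * G * K * (A * A * G)).trace -
        2 * (K * G * K * (A * G * A)).trace := by
    have e7 : G * (K * (G * A * A + A * A * G - 2 * (A * G * A)) * K) =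
        (G * K * (G * A * A + A * A * G - 2 * (A * G * A))) * K := by noncomm_ring
    rw [e7, Matrix.trace_mul_comm]
    have e8 : K * (G * K * (G * A * A + A * A * G - 2 * (A * G * A))) =
        K * G * K * (G * A * A) + K * G * K * (A * A * G) - (2 : ℝ) • (K * G * K * (A * G * A)) := by
      rw [two_smul]
      noncomm_ring
    rw [e8, Matrix.trace_sub, Matrix.trace_add, Matrix.trace_smul, smul_eq_mul]
  rw [h1, h2, h4, ← h3]
  ring

/-! ### The second formula -/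

/-- the position matrix -/
noncomputable def pos (n : ℕ) : Matrix (Fin n) (Fin n) ℝ := diagonal fun i => ((i : ℕ) : ℝ)

theorem pos_tm (n : ℕ) : pos n * tm n - tm n * pos n = -tm n := by
  ext i j
  rw [Matrix.sub_apply, pos, Matrix.diagonal_mul, Matrix.mul_diagonal, Matrix.neg_apply]
  unfold tm
  by_cases h : (j : ℕ) = i + 1
  · rw [if_pos h, h]
    push_cast
    ring
  · rw [if_neg h]
    ring

theorem pos_tmT (n : ℕ) : pos n * (tm n)ᵀ - (tm n)ᵀ * pos n = (tm n)ᵀ := by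
  ext i j
  rw [Matrix.sub_apply, pos, Matrix.diagonal_mul, Matrix.mul_diagonal, Matrix.transpose_apply]
  unfold tm
  by_cases h : (i : ℕ) = j + 1
  · rw [if_pos h, h]
    push_cast
    ring
  · rw [if_neg h]
    ring

theorem pos_km (n : ℕ) : pos n * km n - km n * pos n = tm n + (tm n)ᵀ := by
  have h1 := pos_tm n
  have h2 := pos_tmT n
  unfold km
  have e : pos n * ((tm n)ᵀ - tm n) - ((tm n)ᵀ - tm n) * pos n =
      (pos n * (tm n)ᵀ - (tm n)ᵀ * pos n) - (pos n * tm n - tm n * pos n) := by noncomm_ring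
  rw [e, h1, h2, sub_neg_eq_add, add_comm]

theorem pos_lap {n : ℕ} {A : Matrix (Fin n) (Fin n) ℝ} (d : Fin n → ℝ)
    (h : A = diagonal d - tm n - (tm n)ᵀ) : pos n * A - A * pos n = -km n := by
  have h1 := pos_tm n
  have h2 := pos_tmT n
  have h3 : pos n * diagonal d = diagonal d * pos n := by
    unfold pos
    rw [diagonal_mul_diagonal, diagonal_mul_diagonal]
    congr 1
    funext i
    ring
  rw [h]
  have e : pos n * (diagonal d - tm n - (tm n)ᵀ) - (diagonal d - tm n - (tm n)ᵀ) * pos n =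
      (pos n * diagonal d - diagonal d * pos n) - (pos n * tm n - tm n * pos n) -
        (pos n * (tm n)ᵀ - (tm n)ᵀ * pos n) := by noncomm_ring
  rw [e, h1, h2, h3, sub_self]
  unfold km
  abel

theorem km_transpose (n : ℕ) : (km n)ᵀ = -km n := by
  unfold km
  rw [Matrix.transpose_sub, Matrix.transpose_transpose]
  abel

theorem k4_sub2 (P : Matrix (Fin n1) (Fin n1) ℝ) (Q Q' : Matrix (Fin n2) (Fin n2) ℝ)
    (S : Matrix (Fin n3) (Fin n3) ℝ) (T : Matrix (Fin n4) (Fin n4) ℝ) :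
    k4 P Q S T - k4 P Q' S T = k4 P (Q - Q') S T := by
  ext x y
  simp only [k4, Matrix.sub_apply]
  ring

theorem k4_neg2 (P : Matrix (Fin n1) (Fin n1) ℝ) (Q : Matrix (Fin n2) (Fin n2) ℝ)
    (S : Matrix (Fin n3) (Fin n3) ℝ) (T : Matrix (Fin n4) (Fin n4) ℝ) :
    k4 P (-Q) S T = -k4 P Q S T := by
  ext x y
  simp only [k4, Matrix.neg_apply]
  ring

theorem psd_symm {n : ℕ} {A : Matrix (Fin n) (Fin n) ℝ} (h : A.PosSemidef) : Aᵀ = A := by
  have h1 := h.1.eq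
  rwa [Matrix.conjTranspose_eq_transpose_of_trivial] at h1

theorem aa_tr {n : ℕ} {A : Matrix (Fin n) (Fin n) ℝ} (h : Aᵀ = A) (x0 t s : ℝ) :
    (hk A s * ((diagonal fun i : Fin n => ((i : ℕ) : ℝ) + x0) *
      (diagonal fun i : Fin n => ((i : ℕ) : ℝ) + x0) * hk A t)).trace +
    (hk A s * (hk A t * (diagonal fun i : Fin n => ((i : ℕ) : ℝ) + x0) *
      (diagonal fun i : Fin n => ((i : ℕ) : ℝ) + x0))).trace -
    2 * (hk A s * ((diagonal fun i : Fin n => ((i : ℕ) : ℝ) + x0) * hk A t *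
      (diagonal fun i : Fin n => ((i : ℕ) : ℝ) + x0))).trace = aa A t s := by
  have hs : ∀ x y, hk A t y x = hk A t x y := by
    intro x y
    have := congrFun (congrFun (hk_symm A h t) x) y
    rwa [Matrix.transpose_apply] at this
  unfold aa Matrix.trace
  rw [Finset.mul_sum, ← Finset.sum_add_distrib, ← Finset.sum_sub_distrib]
  refine Finset.sum_congr rfl fun x _ => ?_
  rw [Matrix.diag_apply, Matrix.diag_apply, Matrix.diag_apply, Matrix.mul_apply, Matrix.mul_apply,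
    Matrix.mul_apply, Finset.mul_sum, ← Finset.sum_add_distrib, ← Finset.sum_sub_distrib]
  refine Finset.sum_congr rfl fun y _ => ?_
  rw [diagonal_mul_diagonal, Matrix.mul_assoc (hk A t), diagonal_mul_diagonal,
    Matrix.diagonal_mul, Matrix.mul_diagonal, Matrix.mul_diagonal, Matrix.diagonal_mul, hs x y]
  ring

/-- the second formula -/
theorem part2 {A1 : Matrix (Fin n1) (Fin n1) ℝ} {A2 : Matrix (Fin n2) (Fin n2) ℝ}
    {A3 : Matrix (Fin n3) (Fin n3) ℝ} {A4 : Matrix (Fin n4) (Fin n4) ℝ} (hA1 : A1.PosSemidef)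
    (hA2 : A2.PosSemidef) (hA3 : A3.PosSemidef) (hA4 : A4.PosDef) (d : Fin n2 → ℝ)
    (hd : A2 = diagonal d - tm n2 - (tm n2)ᵀ) (x0 : ℝ) :
    ((ks A1 A2 A3 A4)⁻¹ * k4 (Matrix.diagonal fun i : Fin n1 => (((i : ℕ) : ℝ) + x0) ^ 2)
        (tm n2 + (tm n2)ᵀ) 1 1).trace +
      ((ks A1 A2 A3 A4)⁻¹ * k4 (Matrix.diagonal fun i : Fin n1 => ((i : ℕ) : ℝ) + x0) (km n2) 1 1 *
        (ks A1 A2 A3 A4)⁻¹ *
        k4 (Matrix.diagonal fun i : Fin n1 => ((i : ℕ) : ℝ) + x0) (km n2) 1 1).trace =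
      RI A1 A2 A3 A4 := by
  have hF := F2 hA1 hA2 hA3 hA4
  have s1 := psd_symm hA1
  have s2 := psd_symm hA2
  have s3 := psd_symm hA3
  have s4 := psd_symm hA4.posSemidef
  have hMG := hF.1
  have hGM : (ks A1 A2 A3 A4)⁻¹ * ks A1 A2 A3 A4 = 1 := mul_eq_one_comm.1 hMG
  have hMs : (ks A1 A2 A3 A4)ᵀ = ks A1 A2 A3 A4 := by
    unfold ks
    simp only [Matrix.transpose_add, k4_transpose, Matrix.transpose_one, s1, s2, s3, s4]
  have hG : ((ks A1 A2 A3 A4)⁻¹)ᵀ = (ks A1 A2 A3 A4)⁻¹ := by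
    rw [Matrix.transpose_nonsing_inv, hMs]
  -- the matrices
  obtain ⟨X, hX⟩ : ∃ X : Matrix (Fin n1) (Fin n1) ℝ,
    X = Matrix.diagonal fun i : Fin n1 => ((i : ℕ) : ℝ) + x0 := ⟨_, rfl⟩
  have hXT : Xᵀ = X := by rw [hX, diagonal_transpose]
  have f1 : k4 (Matrix.diagonal fun i : Fin n1 => (((i : ℕ) : ℝ) + x0) ^ 2) (tm n2 + (tm n2)ᵀ)
      (1 : Matrix (Fin n3) (Fin n3) ℝ) (1 : Matrix (Fin n4) (Fin n4) ℝ) =
      k4 X 1 1 1 * k4 X 1 1 1 * k4 1 (tm n2 + (tm n2)ᵀ) 1 1 := by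
    rw [k4_mul, k4_mul]
    simp only [Matrix.one_mul, Matrix.mul_one]
    rw [hX, diagonal_mul_diagonal]
    congr 2
    funext i
    ring
  have f2 : k4 (Matrix.diagonal fun i : Fin n1 => ((i : ℕ) : ℝ) + x0) (km n2)
      (1 : Matrix (Fin n3) (Fin n3) ℝ) (1 : Matrix (Fin n4) (Fin n4) ℝ) =
      k4 X 1 1 1 * k4 1 (km n2) 1 1 := by
    rw [k4_mul, hX]
    simp only [Matrix.one_mul, Matrix.mul_one]
  have hBM : k4 1 (pos n2) 1 1 * ks A1 A2 A3 A4 - ks A1 A2 A3 A4 * k4 1 (pos n2) 1 1 =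
      -k4 1 (km n2) 1 1 := by
    unfold ks
    simp only [Matrix.mul_add, Matrix.add_mul, k4_mul, Matrix.one_mul, Matrix.mul_one]
    rw [← k4_neg2, ← pos_lap d hd, ← k4_sub2]
    abel
  have hBK : k4 (1 : Matrix (Fin n1) (Fin n1) ℝ) (pos n2) (1 : Matrix (Fin n3) (Fin n3) ℝ)
      (1 : Matrix (Fin n4) (Fin n4) ℝ) * k4 1 (km n2) 1 1 - k4 1 (km n2) 1 1 * k4 1 (pos n2) 1 1 =
      k4 1 (tm n2 + (tm n2)ᵀ) 1 1 := by
    simp only [k4_mul, Matrix.one_mul, Matrix.mul_one]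
    rw [k4_sub2, pos_km]
  have hAB : k4 X (1 : Matrix (Fin n2) (Fin n2) ℝ) (1 : Matrix (Fin n3) (Fin n3) ℝ)
      (1 : Matrix (Fin n4) (Fin n4) ℝ) * k4 1 (pos n2) 1 1 = k4 1 (pos n2) 1 1 * k4 X 1 1 1 := by
    simp only [k4_mul, Matrix.one_mul, Matrix.mul_one]
  have hAK : k4 X (1 : Matrix (Fin n2) (Fin n2) ℝ) (1 : Matrix (Fin n3) (Fin n3) ℝ)
      (1 : Matrix (Fin n4) (Fin n4) ℝ) * k4 1 (km n2) 1 1 = k4 1 (km n2) 1 1 * k4 X 1 1 1 := by
    simp only [k4_mul, Matrix.one_mul, Matrix.mul_one]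
  have hK : (k4 (1 : Matrix (Fin n1) (Fin n1) ℝ) (km n2) (1 : Matrix (Fin n3) (Fin n3) ℝ)
      (1 : Matrix (Fin n4) (Fin n4) ℝ))ᵀ = -k4 1 (km n2) 1 1 := by
    simp only [k4_transpose, Matrix.transpose_one, km_transpose, k4_neg2]
  have hA : (k4 X (1 : Matrix (Fin n2) (Fin n2) ℝ) (1 : Matrix (Fin n3) (Fin n3) ℝ)
      (1 : Matrix (Fin n4) (Fin n4) ℝ))ᵀ = k4 X 1 1 1 := by
    simp only [k4_transpose, Matrix.transpose_one, hXT]
  rw [f1, f2, tr_id _ _ _ _ _ _ hMG hGM hBM hBK hAB hAK hG hK hA, hF.2]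
  unfold RI
  -- the inner integral
  have key : ∀ t : ℝ, (k4 (hk A1 t) (hk A2 t) (hk A3 t) (hk A4 t) * (k4 1 (km n2) 1 1 *
      ((ks A1 A2 A3 A4)⁻¹ * k4 X 1 1 1 * k4 X 1 1 1 + k4 X 1 1 1 * k4 X 1 1 1 *
        (ks A1 A2 A3 A4)⁻¹ - 2 * (k4 X 1 1 1 * (ks A1 A2 A3 A4)⁻¹ * k4 X 1 1 1)) *
          k4 1 (km n2) 1 1)).trace = -∫ s in Set.Ioi (0 : ℝ),
      aa A1 t s * bb A2 t s * cc A3 (t + s) * cc A4 (t + s) := by
    intro t
    obtain ⟨R, hR⟩ : ∃ R : Matrix (Fin n1 × Fin n2 × Fin n3 × Fin n4)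
      (Fin n1 × Fin n2 × Fin n3 × Fin n4) ℝ,
      R = k4 (hk A1 t) (km n2 * hk A2 t * km n2) (hk A3 t) (hk A4 t) := ⟨_, rfl⟩
    have hR' : k4 1 (km n2) 1 1 * k4 (hk A1 t) (hk A2 t) (hk A3 t) (hk A4 t) *
        k4 1 (km n2) 1 1 = R := by
      rw [hR]
      simp only [k4_mul, Matrix.one_mul, Matrix.mul_one]
    have e1 : ∀ E K Z : Matrix (Fin n1 × Fin n2 × Fin n3 × Fin n4)
        (Fin n1 × Fin n2 × Fin n3 × Fin n4) ℝ,
        (E * (K * Z * K)).trace = (K * E * K * Z).trace := by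
      intro E K Z
      have e : E * (K * Z * K) = (E * K * Z) * K := by noncomm_ring
      rw [e, Matrix.trace_mul_comm]
      congr 1
      noncomm_ring
    have e2 : ∀ G A : Matrix (Fin n1 × Fin n2 × Fin n3 × Fin n4)
        (Fin n1 × Fin n2 × Fin n3 × Fin n4) ℝ,
        (R * (G * A * A + A * A * G - 2 * (A * G * A))).trace =
          (G * (A * A * R + R * A * A - (2 : ℝ) • (A * R * A))).trace := by
      intro G A
      have e : R * (G * A * A + A * A * G - 2 * (A * G * A)) =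
          (R * G * A * A) + (R * A * A * G) - (2 : ℝ) • (R * A * G * A) := by
        rw [two_smul]
        noncomm_ring
      have e' : G * (A * A * R + R * A * A - (2 : ℝ) • (A * R * A)) =
          (G * A * A * R) + (G * (R * A * A)) - (2 : ℝ) • (G * (A * R * A)) := by
        rw [two_smul, two_smul]
        noncomm_ring
      have g1 : (R * G * A * A).trace = (G * A * A * R).trace := by
        have : R * G * A * A = R * (G * A * A) := by noncomm_ring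
        rw [this, Matrix.trace_mul_comm]
      have g2 : (R * A * A * G).trace = (G * (R * A * A)).trace := Matrix.trace_mul_comm _ _
      have g3 : (R * A * G * A).trace = (G * (A * R * A)).trace := by
        have : R * A * G * A = (R * A) * (G * A) := by noncomm_ring
        rw [this, Matrix.trace_mul_comm]
        congr 1
        noncomm_ring
      rw [e, e', Matrix.trace_sub, Matrix.trace_sub, Matrix.trace_add, Matrix.trace_add,
        Matrix.trace_smul, Matrix.trace_smul, g1, g2, g3]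
    rw [e1, hR', e2, hF.2, ← MeasureTheory.integral_neg]
    congr 1
    funext s
    have haa := aa_tr s1 x0 t s
    rw [← hX] at haa
    have hbb : (hk A2 s * (km n2 * hk A2 t * km n2)).trace = -bb A2 t s := by
      unfold bb
      rw [neg_neg, Matrix.trace_mul_comm]
    have hcc3 : (hk A3 s * hk A3 t).trace = cc A3 (t + s) := by
      rw [hk_add, add_comm]
      rfl
    have hcc4 : (hk A4 s * hk A4 t).trace = cc A4 (t + s) := by
      rw [hk_add, add_comm]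
      rfl
    have e3 : (k4 (hk A1 s) (hk A2 s) (hk A3 s) (hk A4 s) *
        (k4 X 1 1 1 * k4 X 1 1 1 * R + R * k4 X 1 1 1 * k4 X 1 1 1 -
          (2 : ℝ) • (k4 X 1 1 1 * R * k4 X 1 1 1))).trace =
        ((hk A1 s * (X * X * hk A1 t)).trace + (hk A1 s * (hk A1 t * X * X)).trace -
          2 * (hk A1 s * (X * hk A1 t * X)).trace) *
            ((hk A2 s * (km n2 * hk A2 t * km n2)).trace * (hk A3 s * hk A3 t).trace *
              (hk A4 s * hk A4 t).trace) := by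
      rw [hR, Matrix.mul_sub, Matrix.mul_add, Matrix.mul_smul, Matrix.trace_sub, Matrix.trace_add,
        Matrix.trace_smul, smul_eq_mul]
      simp only [k4_mul, k4_trace, Matrix.one_mul, Matrix.mul_one]
      ring
    rw [e3, haa, hbb, hcc3, hcc4]
    ring
  simp only [key, MeasureTheory.integral_neg]
  ring

end four

/-- **Task AF-T** -/
theorem tt : S_T := by
  intro n1 n2 n3 n4 A1 A2 A3 A4 h1 h2 h3 h4
  refine ⟨part1 h1 h2 h3 h4, fun hA2 x0 => part2 h1 h2 h3 h4 _ hA2 x0, ?_⟩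
  intro m1 m2 B1 B2 N1 N2 hB1 hB2
  exact part3 h1 h2 h3 h4 B1 B2 N1 N2 hB1 hB2

end Pool.Agent.H307.AF
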